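import Pool.Agent.H86.DQ.Card

/-!
Let `M` be the inner model `C(Δ(L(Q₁)))` (`w = false`) or `C(Δ(L(Q₁, W)))` (`w = true`).  All reals of
`M` appear in its hierarchy before stage `ω₂`, so `M` has at most `ℵ₂` reals; if `2^ℵ₀ > ℵ₂`, then
`M` does not contain all reals.
-/

set_option autoImplicit false

open Cardinal

namespace Pool.Agent.Results.MP_d7cecc_lc.FewReals

open Pool.Agent.H86.DQ

universe u

theorem result (w : Bool) :
    (∀ κ : Cardinal.{u}, ℵ_ 1 ≤ κ → ∀ t : ZFSet.{u}, (∀ x ∈ t, ∀ y ∈ x, y ∈ t) →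
      Cardinal.mk t ≤ lift.{u + 1} κ → ∀ x ∈ C w, (∀ y ∈ x, y ∈ t) →
        ∃ β < (Order.succ κ).ord, x ∈ Lp w β) ∧
    (∀ x : ZFSet.{u}, IsReal x → x ∈ C w → ∃ β < (ℵ_ 2 : Cardinal.{u}).ord, x ∈ Lp w β) ∧
    #{x : ZFSet.{u} | IsReal x ∧ x ∈ C w} ≤ ℵ_ 2 ∧
    ((ℵ_ 2 : Cardinal.{u + 1}) < 𝔠 → ∃ x : ZFSet.{u}, IsReal x ∧ x ∉ C w) := by
  refine ⟨fun κ hκ t ht hc x hx hxt => subset_stage w hκ ht hc hx hxt,
    fun x hx hC => real_stage w hx hC, card_reals w, fun h => ?_⟩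
  by_contra hn
  push Not at hn
  have h1 : {x : ZFSet.{u} | IsReal x ∧ x ∈ C w} = {x : ZFSet.{u} | IsReal x} := by
    ext x
    exact ⟨fun hx => hx.1, fun hx => ⟨hx, hn x hx⟩⟩
  have h2 := card_reals.{u} w
  rw [h1] at h2
  exact absurd (continuum_le_reals.trans h2) (not_le.mpr h)

end Pool.Agent.Results.MP_d7cecc_lc.FewReals
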