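import Pool.Agent.H86.CM.Fin

/-!
ZFC does not prove that all reals belong to `C(Δ(L(Q₁)))`, nor that all reals belong to
`C(Δ(L(Q₁, W)))`: in a model of ZFC obtained with the Cohen algebra some real is in neither of them.
-/

set_option autoImplicit false

namespace Pool.Agent.Results.MP_d7cecc_lc.Unprovable

open Pool.Agent.H86.CM

/-- For each of the two inner models the statement `P(ω) ⊆ C(...)` is expressed by a formula of set
theory, and there is a model `(M, E)` of ZFC with a subset of `ω` which belongs to neither of the two
inner models of `(M, E)`. -/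
theorem result :
    (∀ w : Bool, ∃ σ : BV.Fml, ∀ (M : Type 1) (E : M → M → Prop) (v : ℕ → M),
      BV.Sat E σ v ↔ ∀ x, IsReal E x → InC E w x) ∧
    ∃ (M : Type 1) (E : M → M → Prop), BV.IsZFC E ∧
      ∃ x, IsReal E x ∧ ¬ InC E false x ∧ ¬ InC E true x :=
  ⟨exists_sentence, exists_model⟩

end Pool.Agent.Results.MP_d7cecc_lc.Unprovable
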